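import Mathlib

/-!
# (P3'): a finite symmetric relation with midpoints and an induced P4 has a good P4

`S x y` : the point x sees the point y (loops allowed). Midpoints of closed pairs exist. Then, if there is an induced
path on four vertices, there is one with loops 0110 for which no vertex `w`, agreeing with the path
at every point where the four vertices of the path agree, sees exactly `{a,b}`, `{c,d}`, `{a,c}` or
`{b,d}`.
-/

namespace Pool.Agent.H11.P3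

variable {X : Type*}

/-- induced path a-b-c-d (loops ignored) -/
def P4 (S : X → X → Prop) (a b c d : X) : Prop :=
  S a b ∧ S b c ∧ S c d ∧ ¬ S a c ∧ ¬ S a d ∧ ¬ S b d

/-- g is a midpoint of the closed pair u, v -/
def Mid (S : X → X → Prop) (u v g : X) : Prop :=
  (S g g ↔ ¬ S u u) ∧ (S g u ↔ ¬ S u u) ∧ (S g v ↔ ¬ S u u) ∧
    ∀ y, (S u y ↔ S v y) → (S g y ↔ S u y)

/-- closed pairs in D have midpoints in D -/
def PC (S : X → X → Prop) (D : Set X) : Prop :=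
  ∀ u ∈ D, ∀ v ∈ D, (S u u ↔ S v v) → ¬ (S u v ↔ S u u) → ∃ g ∈ D, Mid S u v g

def NoP4 (S : X → X → Prop) (D : Set X) : Prop :=
  ∀ a ∈ D, ∀ b ∈ D, ∀ c ∈ D, ∀ d ∈ D, ¬ P4 S a b c d

def co (S : X → X → Prop) : X → X → Prop := fun x y => ¬ S x y

def Root (S : X → X → Prop) (D : Set X) : Prop :=
  ∃ r ∈ D, (∀ x ∈ D, ¬ S r x) ∨ (∀ x ∈ D, S r x)

theorem co_sym {S : X → X → Prop} (sym : ∀ x y, S x y → S y x) :
    ∀ x y, co S x y → co S y x :=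
  fun x y h h' => h (sym y x h')

theorem co_mid {S : X → X → Prop} {u v g : X} (h : Mid S u v g) : Mid (co S) u v g := by
  obtain ⟨h1, h2, h3, h4⟩ := h
  refine ⟨?_, ?_, ?_, ?_⟩
  · unfold co; tauto
  · unfold co; tauto
  · unfold co; tauto
  · intro y hy
    have := h4 y (by unfold co at hy; tauto)
    unfold co; tauto

theorem co_pc {S : X → X → Prop} {D : Set X} (h : PC S D) : PC (co S) D := by
  intro u hu v hv h1 h2
  obtain ⟨g, hg, m⟩ := h u hu v hv (by unfold co at h1; tauto) (by unfold co at h2; tauto)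
  exact ⟨g, hg, co_mid m⟩

theorem co_p4 {S : X → X → Prop} (sym : ∀ x y, S x y → S y x) {a b c d : X}
    (h : P4 S a b c d) : P4 (co S) b d a c := by
  obtain ⟨h1, h2, h3, h4, h5, h6⟩ := h
  exact ⟨h6, fun h => h5 (sym _ _ h), h4, fun h => h (sym _ _ h1), fun h => h h2,
    fun h => h (sym _ _ h3)⟩

theorem co_p4' {S : X → X → Prop} (sym : ∀ x y, S x y → S y x) {a b c d : X}
    (h : P4 (co S) a b c d) : P4 S c a d b := by
  obtain ⟨h1, h2, h3, h4, h5, h6⟩ := h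
  have h4' : S a c := by by_contra h; exact h4 h
  have h5' : S a d := by by_contra h; exact h5 h
  have h6' : S b d := by by_contra h; exact h6 h
  exact ⟨sym _ _ h4', h5', sym _ _ h6', h3, fun h => h2 (sym _ _ h), h1⟩

theorem rev_p4 {S : X → X → Prop} (sym : ∀ x y, S x y → S y x) {a b c d : X}
    (h : P4 S a b c d) : P4 S d c b a := by
  obtain ⟨h1, h2, h3, h4, h5, h6⟩ := h
  exact ⟨sym _ _ h3, sym _ _ h2, sym _ _ h1, fun h => h6 (sym _ _ h), fun h => h5 (sym _ _ h),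
    fun h => h4 (sym _ _ h)⟩

theorem co_root {S : X → X → Prop} {D : Set X} (h : Root S D) : Root (co S) D := by
  obtain ⟨r, hr, h0 | h1⟩ := h
  · exact ⟨r, hr, Or.inr h0⟩
  · exact ⟨r, hr, Or.inl fun x hx h => h (h1 x hx)⟩

theorem up_of {S : X → X → Prop} (sym : ∀ x y, S x y → S y x) {C : Set X} (pc : PC S C) {y : X}
    (hy : y ∈ C) (h : Root S {x | x ∈ C ∧ S y x}) :
    ∃ r ∈ C, S y r ∧ ∀ x ∈ C, S y x → S r x := by
  obtain ⟨r, ⟨hrC, hyr⟩, h0 | h1⟩ := h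
  · exfalso
    by_cases hyy : S y y
    · exact h0 y ⟨hy, hyy⟩ (sym _ _ hyr)
    · have hrr : ¬ S r r := h0 r ⟨hrC, hyr⟩
      obtain ⟨g, hg, m1, m2, m3, m4⟩ := pc y hy r hrC (by tauto) (by tauto)
      have hgy : S g y := m2.2 hyy
      have hgr : S g r := m3.2 hyy
      exact h0 g ⟨hg, sym _ _ hgy⟩ (sym _ _ hgr)
  · exact ⟨r, hrC, hyr, fun x hx hyx => h1 x ⟨hx, hyx⟩⟩

theorem dn_of {S : X → X → Prop} (sym : ∀ x y, S x y → S y x) {C : Set X} (pc : PC S C) {y : X}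
    (hy : y ∈ C) (h : Root S {x | x ∈ C ∧ ¬ S y x}) :
    ∃ r ∈ C, ¬ S y r ∧ ∀ x ∈ C, ¬ S y x → ¬ S r x :=
  up_of (S := co S) (co_sym sym) (co_pc pc) hy (co_root h)

theorem pc_sub {S : X → X → Prop} (sym : ∀ x y, S x y → S y x) {D : Set X} (w : X)
    (h : PC S D) : PC S {x | x ∈ D ∧ S w x} := by
  intro u hu v hv h1 h2
  obtain ⟨g, hg, m⟩ := h u hu.1 v hv.1 h1 h2
  exact ⟨g, ⟨hg, sym _ _ ((m.2.2.2 w ⟨fun _ => sym _ _ hv.2, fun _ => sym _ _ hu.2⟩).2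
    (sym _ _ hu.2))⟩, m⟩

theorem pc_sub' {S : X → X → Prop} (sym : ∀ x y, S x y → S y x) {D : Set X} (w : X)
    (h : PC S D) : PC S {x | x ∈ D ∧ ¬ S w x} := by
  intro u hu v hv h1 h2
  obtain ⟨g, hg, m⟩ := h u hu.1 v hv.1 h1 h2
  exact ⟨g, ⟨hg, fun hwg => hu.2 (sym _ _ ((m.2.2.2 w ⟨fun h' => absurd (sym _ _ h') hu.2,
    fun h' => absurd (sym _ _ h') hv.2⟩).1 (sym _ _ hwg)))⟩, m⟩

/-- LEMMA R -/
theorem lemmaR [Finite X] {S : X → X → Prop} (sym : ∀ x y, S x y → S y x) :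
    ∀ (n : ℕ) (D : Set X), D.ncard = n → D.Nonempty → PC S D → NoP4 S D → Root S D := by
  intro n
  induction n using Nat.strong_induction_on with
  | _ n ih =>
  intro D hn hne hPC hN
  by_contra hno
  have hno1 : ∀ r ∈ D, ∃ x ∈ D, S r x := by
    intro r hr
    by_contra h
    push Not at h
    exact hno ⟨r, hr, Or.inl h⟩
  have hno2 : ∀ r ∈ D, ∃ x ∈ D, ¬ S r x := by
    intro r hr
    by_contra h
    push Not at h
    exact hno ⟨r, hr, Or.inr h⟩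
  have up : ∀ y ∈ D, ∃ r ∈ D, S y r ∧ ∀ x ∈ D, S y x → S r x := by
    intro y hy
    obtain ⟨x1, hx1, h1⟩ := hno1 y hy
    obtain ⟨x2, hx2, h2⟩ := hno2 y hy
    refine up_of sym hPC hy (ih _ ?_ _ rfl ⟨x1, hx1, h1⟩ (pc_sub sym y hPC)
      (fun a ha b hb c hc d hd => hN a ha.1 b hb.1 c hc.1 d hd.1))
    rw [← hn]
    exact Set.ncard_lt_ncard ⟨fun x hx => hx.1, fun h => h2 (h hx2).2⟩ (Set.toFinite _)
  have dn : ∀ y ∈ D, ∃ r ∈ D, ¬ S y r ∧ ∀ x ∈ D, ¬ S y x → ¬ S r x := by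
    intro y hy
    obtain ⟨x1, hx1, h1⟩ := hno1 y hy
    obtain ⟨x2, hx2, h2⟩ := hno2 y hy
    refine dn_of sym hPC hy (ih _ ?_ _ rfl ⟨x2, hx2, h2⟩ (pc_sub' sym y hPC)
      (fun a ha b hb c hc d hd => hN a ha.1 b hb.1 c hc.1 d hd.1))
    rw [← hn]
    exact Set.ncard_lt_ncard ⟨fun x hx => hx.1, fun h => (h hx1).2 h1⟩ (Set.toFinite _)
  obtain ⟨b, hb, hmax⟩ := Set.exists_max_image D (fun b => {x | x ∈ D ∧ S b x}.ncard)
    (Set.toFinite _) hne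
  obtain ⟨d, hd, hbd, hd'⟩ := dn b hb
  obtain ⟨c, hc, hdc, hc'⟩ := up d hd
  have hbc : S b c := by
    by_contra h
    exact hd' c hc h hdc
  have hcd : S c d := sym _ _ hdc
  obtain ⟨a, ha, hba, hca⟩ : ∃ a ∈ D, S b a ∧ ¬ S c a := by
    by_contra h
    push Not at h
    have hlt : {x | x ∈ D ∧ S b x}.ncard < {x | x ∈ D ∧ S c x}.ncard :=
      Set.ncard_lt_ncard ⟨fun x hx => ⟨hx.1, h x hx.1 hx.2⟩, fun h' => hbd (h' ⟨hd, hcd⟩).2⟩
        (Set.toFinite _)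
    exact absurd (hmax c hc) (not_le.mpr hlt)
  exact hN a ha b hb c hc d hd ⟨sym _ _ hba, hbc, hcd, fun h => hca (sym _ _ h),
    fun h => hca (hc' a ha (sym _ _ h)), hbd⟩

/-- minimal cell -/
structure Cell (S : X → X → Prop) (C : Set X) : Prop where
  sym : ∀ x y, S x y → S y x
  pc : PC S C
  min0 : ∀ a ∈ C, ∀ b ∈ C, ∀ c ∈ C, ∀ d ∈ C, P4 S a b c d → ∀ y, ¬ S y a → ¬ S y b → ¬ S y c →
    ¬ S y d → ∀ x ∈ C, ¬ S y x
  min1 : ∀ a ∈ C, ∀ b ∈ C, ∀ c ∈ C, ∀ d ∈ C, P4 S a b c d → ∀ y, S y a → S y b → S y c →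
    S y d → ∀ x ∈ C, S y x

theorem Cell.compl {S : X → X → Prop} {C : Set X} (h : Cell S C) : Cell (co S) C where
  sym := co_sym h.sym
  pc := co_pc h.pc
  min0 := by
    intro a ha b hb c hc d hd hp y h1 h2 h3 h4 x hx
    unfold co at h1 h2 h3 h4 ⊢
    rw [not_not] at *
    exact h.min1 c hc a ha d hd b hb (co_p4' h.sym hp) y h3 h1 h4 h2 x hx
  min1 := by
    intro a ha b hb c hc d hd hp y h1 h2 h3 h4 x hx
    exact h.min0 c hc a ha d hd b hb (co_p4' h.sym hp) y h3 h1 h4 h2 x hx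

theorem Cell.noP4 {S : X → X → Prop} {C : Set X} (h : Cell S C) {y : X}
    (hy : ∃ x ∈ C, ¬ S y x) {D : Set X} (hD : ∀ x ∈ D, x ∈ C ∧ S y x) : NoP4 S D := by
  intro a ha b hb c hc d hd hp
  obtain ⟨x, hx, hx'⟩ := hy
  exact hx' (h.min1 a (hD a ha).1 b (hD b hb).1 c (hD c hc).1 d (hD d hd).1 hp y (hD a ha).2
    (hD b hb).2 (hD c hc).2 (hD d hd).2 x hx)

theorem Cell.up [Finite X] {S : X → X → Prop} {C : Set X} (h : Cell S C) {y : X} (hy : y ∈ C)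
    (h1 : ∃ x ∈ C, S y x) (h0 : ∃ x ∈ C, ¬ S y x) : ∃ r ∈ C, S y r ∧ ∀ x ∈ C, S y x → S r x := by
  obtain ⟨x, hx, hx'⟩ := h1
  exact up_of h.sym h.pc hy (lemmaR h.sym _ _ rfl ⟨x, hx, hx'⟩ (pc_sub h.sym y h.pc)
    (h.noP4 h0 fun x hx => hx))

theorem Cell.dn [Finite X] {S : X → X → Prop} {C : Set X} (h : Cell S C) {y : X} (hy : y ∈ C)
    (h1 : ∃ x ∈ C, S y x) (h0 : ∃ x ∈ C, ¬ S y x) :
    ∃ r ∈ C, ¬ S y r ∧ ∀ x ∈ C, ¬ S y x → ¬ S r x :=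
  h.compl.up hy h0 (by obtain ⟨x, hx, hx'⟩ := h1; exact ⟨x, hx, fun h => h hx'⟩)

/-- the cell D* of a path a b c -/
def Ds (S : X → X → Prop) (C : Set X) (a b c : X) : Set X :=
  {x | x ∈ C ∧ S c x ∧ ¬ S a x ∧ ¬ S b x}

theorem Cell.pc_Ds {S : X → X → Prop} {C : Set X} (h : Cell S C) (a b c : X) :
    PC S (Ds S C a b c) := by
  have h1 := pc_sub' h.sym b (pc_sub' h.sym a (pc_sub h.sym c h.pc))
  intro u hu v hv e1 e2
  obtain ⟨g, hg, m⟩ := h1 u ⟨⟨⟨hu.1, hu.2.1⟩, hu.2.2.1⟩, hu.2.2.2⟩ v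
    ⟨⟨⟨hv.1, hv.2.1⟩, hv.2.2.1⟩, hv.2.2.2⟩ e1 e2
  exact ⟨g, ⟨hg.1.1.1, hg.1.1.2, hg.1.2, hg.2⟩, m⟩

theorem Cell.root_Ds [Finite X] {S : X → X → Prop} {C : Set X} (h : Cell S C) {a b c d : X}
    (ha : a ∈ C) (hd : d ∈ C) (hp : P4 S a b c d) : Root S (Ds S C a b c) := by
  obtain ⟨h1, h2, h3, h4, h5, h6⟩ := hp
  exact lemmaR h.sym _ _ rfl ⟨d, hd, h3, h5, h6⟩ (h.pc_Ds a b c)
    (h.noP4 ⟨a, ha, fun h' => h4 (h.sym _ _ h')⟩ fun x hx => ⟨hx.1, hx.2.1⟩)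

/-- (i): no root of type 1 -/
theorem Cell.typ0 [Finite X] {S : X → X → Prop} {C : Set X} (h : Cell S C) {a b c d : X}
    (ha : a ∈ C) (hb : b ∈ C) (hc : c ∈ C) (hd : d ∈ C) (hp : P4 S a b c d)
    (hroot : ∀ x ∈ Ds S C a b c, S d x) : False := by
  have sym := h.sym
  have hp' := hp
  obtain ⟨hab, hbc, hcd, hac, had, hbd⟩ := hp'
  have hda : ¬ S d a := fun h' => had (sym _ _ h')
  have hdb : ¬ S d b := fun h' => hbd (sym _ _ h')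
  by_cases hz : ∃ z ∈ C, ∀ x ∈ C, ¬ S z x
  · -- no all-ones vertex
    obtain ⟨z, hzC, hz⟩ := hz
    have noone : ∀ o ∈ C, (∀ x ∈ C, S o x) → False := fun o ho h' =>
      hz o ho (sym _ _ (h' z hzC))
    have hBpc : PC S {x | x ∈ C ∧ S a x ∧ S c x ∧ ¬ S d x} := by
      have h1 := pc_sub' sym d (pc_sub sym c (pc_sub sym a h.pc))
      intro u hu v hv e1 e2
      obtain ⟨g, hg, m⟩ := h1 u ⟨⟨⟨hu.1, hu.2.1⟩, hu.2.2.1⟩, hu.2.2.2⟩ v
        ⟨⟨⟨hv.1, hv.2.1⟩, hv.2.2.1⟩, hv.2.2.2⟩ e1 e2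
      exact ⟨g, ⟨hg.1.1.1, hg.1.1.2, hg.1.2, hg.2⟩, m⟩
    have hbB : b ∈ {x | x ∈ C ∧ S a x ∧ S c x ∧ ¬ S d x} := ⟨hb, hab, sym _ _ hbc, hdb⟩
    obtain ⟨b', hb', h0 | h1⟩ := lemmaR sym _ _ rfl ⟨b, hbB⟩ hBpc
      (h.noP4 (y := a) ⟨c, hc, hac⟩ fun x hx => ⟨hx.1, hx.2.1⟩)
    · -- type 0
      obtain ⟨hb'C, hab', hcb', hdb'⟩ := hb'
      obtain ⟨p, hpC, hbp, hpp⟩ := h.up hb'C ⟨a, ha, sym _ _ hab'⟩
        ⟨d, hd, fun h' => hdb' (sym _ _ h')⟩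
      have hpa : S p a := hpp a ha (sym _ _ hab')
      have hpc : S p c := hpp c hc (sym _ _ hcb')
      have hpd : S p d := by
        by_contra h'
        exact h0 p ⟨hpC, sym _ _ hpa, sym _ _ hpc, fun h'' => h' (sym _ _ h'')⟩ hbp
      exact noone p hpC (h.min1 a ha b' hb'C c hc d hd
        ⟨hab', sym _ _ hcb', hcd, hac, had, fun h' => hdb' (sym _ _ h')⟩ p hpa (sym _ _ hbp)
        hpc hpd)
    · -- type 1
      have hbb' : S b' b := h1 b hbB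
      have hb'b' : S b' b' := h1 b' hb'
      obtain ⟨hb'C, hab', hcb', hdb'⟩ := hb'
      have hb'd : ¬ S b' d := fun h' => hdb' (sym _ _ h')
      have hdd : S d d := hroot d ⟨hd, hcd, had, hbd⟩
      obtain ⟨g, hg, m1, m2, m3, m4⟩ := h.pc b' hb'C d hd (by tauto) (by tauto)
      have hgb' : ¬ S g b' := fun h' => m2.1 h' hb'b'
      have hgd : ¬ S g d := fun h' => m3.1 h' hb'b'
      have hgc : S g c := (m4 c ⟨fun _ => sym _ _ hcd, fun _ => sym _ _ hcb'⟩).2 (sym _ _ hcb')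
      have hag : ¬ S a g := fun h' =>
        hgb' (sym _ _ (h1 g ⟨hg, h', sym _ _ hgc, fun h'' => hgd (sym _ _ h'')⟩))
      have hbg : S b g := by
        by_contra h'
        exact hgd (sym _ _ (hroot g ⟨hg, sym _ _ hgc, hag, h'⟩))
      exact hbd (h.min1 a ha b' hb'C c hc g hg
        ⟨hab', sym _ _ hcb', sym _ _ hgc, hac, hag, fun h' => hgb' (sym _ _ h')⟩ b (sym _ _ hab)
        (sym _ _ hbb') hbc hbg d hd)
  · -- no zero vertex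
    obtain ⟨d', hd'C, h1, h2⟩ := h.dn hd ⟨c, hc, sym _ _ hcd⟩ ⟨b, hb, hdb⟩
    have e1 : ¬ S d' a := h2 a ha hda
    have e2 : ¬ S d' b := h2 b hb hdb
    have e3 : ¬ S d' c := by
      intro h'
      exact h1 (hroot d' ⟨hd'C, sym _ _ h', fun h'' => e1 (sym _ _ h''),
        fun h'' => e2 (sym _ _ h'')⟩)
    exact hz ⟨d', hd'C, h.min0 a ha b hb c hc d hd hp d' e1 e2 e3 (fun h' => h1 (sym _ _ h'))⟩

/-- (i) -/
theorem Cell.root0 [Finite X] {S : X → X → Prop} {C : Set X} (h : Cell S C) {a b c d : X}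
    (ha : a ∈ C) (hb : b ∈ C) (hc : c ∈ C) (hd : d ∈ C) (hp : P4 S a b c d) :
    ∃ r ∈ Ds S C a b c, ∀ x ∈ Ds S C a b c, ¬ S r x := by
  obtain ⟨r, hr, h0 | h1⟩ := h.root_Ds ha hd hp
  · exact ⟨r, hr, h0⟩
  · exact (h.typ0 ha hb hc hr.1 ⟨hp.1, hp.2.1, hr.2.1, hp.2.2.2.1, hr.2.2.1, hr.2.2.2⟩ h1).elim

/-- (ii) -/
theorem Cell.incl [Finite X] {S : X → X → Prop} {C : Set X} (h : Cell S C) {a b c d r : X}
    (ha : a ∈ C) (hb : b ∈ C) (hc : c ∈ C) (hd : d ∈ C) (hp : P4 S a b c d)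
    (hr : r ∈ Ds S C a b c) (hr0 : ∀ x ∈ Ds S C a b c, ¬ S r x) : ∀ y ∈ C, S r y → S d y := by
  intro y hy hry
  by_contra hdy
  have sym := h.sym
  have hp' := hp
  obtain ⟨hab, hbc, hcd, hac, had, hbd⟩ := hp'
  obtain ⟨hrC, hcr, har, hbr⟩ := hr
  have hda : ¬ S d a := fun h' => had (sym _ _ h')
  have hdb : ¬ S d b := fun h' => hbd (sym _ _ h')
  have hdc : S d c := sym _ _ hcd
  have hrd : ¬ S r d := hr0 d ⟨hd, hcd, had, hbd⟩
  have hdr : ¬ S d r := fun h' => hrd (sym _ _ h')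
  have hyr : S y r := sym _ _ hry
  have hyd : ¬ S y d := fun h' => hdy (sym _ _ h')
  -- y sees b or not
  have key0 : ∀ p ∈ C, ∀ q ∈ C, ∀ s ∈ C, ∀ t ∈ C, P4 S p q s t → ¬ S d p → ¬ S d q → ¬ S d s →
      ¬ S d t → False := fun p hp q hq s hs t ht h1 h2 h3 h4 h5 =>
    h.min0 p hp q hq s hs t ht h1 d h2 h3 h4 h5 c hc hdc
  by_cases hya : S y a
  · by_cases hyb : S y b
    · by_cases hyc : S y c
      · -- all of (a,b,c,r)
        exact hyd (h.min1 a ha b hb c hc r hrC ⟨hab, hbc, hcr, hac, har, hbr⟩ y hya hyb hyc hyr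
          d hd)
      · -- trace {a,b}
        obtain ⟨ρ, hρ, hρ0⟩ := h.root0 hd hc hb ha (rev_p4 sym hp)
        have hρa : ¬ S ρ a := hρ0 a ⟨ha, sym _ _ hab, hda, fun h' => hac (sym _ _ h')⟩
        have hρy : ¬ S ρ y := hρ0 y ⟨hy, sym _ _ hyb, hdy, fun h' => hyc (sym _ _ h')⟩
        obtain ⟨hρC, hbρ, hdρ, hcρ⟩ := hρ
        by_cases hρr : S ρ r
        · exact key0 a ha y hy r hrC ρ hρC ⟨sym _ _ hya, hyr, sym _ _ hρr, har,
            fun h' => hρa (sym _ _ h'), fun h' => hρy (sym _ _ h')⟩ hda hdy hdr hdρ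
        · exact h.min0 a ha y hy r hrC c hc ⟨sym _ _ hya, hyr, sym _ _ hcr, har, hac, hyc⟩ ρ hρa
            hρy hρr (fun h' => hcρ (sym _ _ h')) b hb (sym _ _ hbρ)
    · -- a not b : (b,a,y,r)
      exact key0 b hb a ha y hy r hrC ⟨sym _ _ hab, sym _ _ hya, hyr,
        fun h' => hyb (sym _ _ h'), hbr, har⟩ hdb hda hdy hdr
  · by_cases hyb : S y b
    · -- b not a : (a,b,y,r)
      exact key0 a ha b hb y hy r hrC ⟨hab, sym _ _ hyb, hyr, fun h' => hya (sym _ _ h'), har,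
        hbr⟩ hda hdb hdy hdr
    · by_cases hyc : S y c
      · exact hr0 y ⟨hy, sym _ _ hyc, fun h' => hya (sym _ _ h'), fun h' => hyb (sym _ _ h')⟩ hry
      · exact h.min0 a ha b hb c hc d hd hp y hya hyb hyc hyd r hrC hyr

/-- a degree-minimal end is a root -/
theorem Cell.endroot [Finite X] {S : X → X → Prop} {C : Set X} (h : Cell S C) {a b c d : X}
    (ha : a ∈ C) (hb : b ∈ C) (hc : c ∈ C) (hd : d ∈ C) (hp : P4 S a b c d)
    (hmin : ∀ r ∈ C, P4 S a b c r → {x | x ∈ C ∧ S d x}.ncard ≤ {x | x ∈ C ∧ S r x}.ncard) :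
    ∀ x ∈ Ds S C a b c, ¬ S d x := by
  obtain ⟨r, hr, hr0⟩ := h.root0 ha hb hc hd hp
  have hin := h.incl ha hb hc hd hp hr hr0
  have hle := hmin r hr.1 ⟨hp.1, hp.2.1, hr.2.1, hp.2.2.2.1, hr.2.2.1, hr.2.2.2⟩
  have hsub : {x | x ∈ C ∧ S r x} ⊆ {x | x ∈ C ∧ S d x} := fun x hx => ⟨hx.1, hin x hx.1 hx.2⟩
  have heq := Set.eq_of_subset_of_ncard_le hsub hle (Set.toFinite _)
  intro x hx hdx
  have : x ∈ {x | x ∈ C ∧ S r x} := by rw [heq]; exact ⟨hx.1, hdx⟩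
  exact hr0 x hx this.2

/-- the conclusion in a minimal cell -/
theorem Cell.good [Finite X] {S : X → X → Prop} {C : Set X} (h : Cell S C)
    (hex : ∃ a ∈ C, ∃ b ∈ C, ∃ c ∈ C, ∃ d ∈ C, P4 S a b c d) :
    ∃ a ∈ C, ∃ b ∈ C, ∃ c ∈ C, ∃ d ∈ C, P4 S a b c d ∧ ¬ S a a ∧ S b b ∧ S c c ∧ ¬ S d d ∧
      ∀ w ∈ C, ¬ (S w a ∧ S w b ∧ ¬ S w c ∧ ¬ S w d) ∧ ¬ (¬ S w a ∧ ¬ S w b ∧ S w c ∧ S w d) ∧
        ¬ (S w a ∧ ¬ S w b ∧ S w c ∧ ¬ S w d) ∧ ¬ (¬ S w a ∧ S w b ∧ ¬ S w c ∧ S w d) := by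
  obtain ⟨a0, ha0, b0, hb0, c0, hc0, d0, hd0, hp0⟩ := hex
  obtain ⟨⟨a, b, c, d⟩, ⟨ha, hb, hc, hd, hp⟩, hmin⟩ := Set.exists_min_image
    {q : X × X × X × X | q.1 ∈ C ∧ q.2.1 ∈ C ∧ q.2.2.1 ∈ C ∧ q.2.2.2 ∈ C ∧
      P4 S q.1 q.2.1 q.2.2.1 q.2.2.2}
    (fun q => {x | x ∈ C ∧ S q.1 x}.ncard + {x | x ∈ C ∧ S q.2.2.2 x}.ncard +
      {x | x ∈ C ∧ ¬ S q.2.1 x}.ncard + {x | x ∈ C ∧ ¬ S q.2.2.1 x}.ncard)
    (Set.toFinite _) ⟨(a0, b0, c0, d0), ha0, hb0, hc0, hd0, hp0⟩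
  simp only at ha hb hc hd hp
  have sym := h.sym
  have rd : ∀ x ∈ Ds S C a b c, ¬ S d x := by
    refine h.endroot ha hb hc hd hp fun r hr hpr => ?_
    have := hmin (a, b, c, r) ⟨ha, hb, hc, hr, hpr⟩
    simp only at this
    omega
  have ra : ∀ x ∈ Ds S C d c b, ¬ S a x := by
    refine h.endroot hd hc hb ha (rev_p4 sym hp) fun r hr hpr => ?_
    have := hmin (r, b, c, d) ⟨hr, hb, hc, hd, rev_p4 sym hpr⟩
    simp only at this
    omega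
  have rc : ∀ x ∈ Ds (co S) C b d a, ¬ co S c x := by
    refine h.compl.endroot hb hd ha hc (co_p4 sym hp) fun r hr hpr => ?_
    have := hmin (a, b, r, d) ⟨ha, hb, hr, hd, co_p4' sym hpr⟩
    simp only at this
    unfold co
    omega
  have rb : ∀ x ∈ Ds (co S) C c a d, ¬ co S b x := by
    refine h.compl.endroot hc ha hd hb (rev_p4 (co_sym sym) (co_p4 sym hp)) fun r hr hpr => ?_
    have := hmin (a, r, c, d) ⟨ha, hr, hc, hd, rev_p4 sym (co_p4' sym hpr)⟩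
    simp only at this
    unfold co
    omega
  obtain ⟨hab, hbc, hcd, hac, had, hbd⟩ := hp
  have nn : ∀ {p : Prop}, p → ¬ ¬ p := fun hp h' => h' hp
  refine ⟨a, ha, b, hb, c, hc, d, hd, ⟨hab, hbc, hcd, hac, had, hbd⟩,
    ra a ⟨ha, sym _ _ hab, fun h' => had (sym _ _ h'), fun h' => hac (sym _ _ h')⟩,
    not_not.1 (rb b ⟨hb, fun h' => hbd (sym _ _ h'), nn (sym _ _ hbc), nn hab⟩),
    not_not.1 (rc c ⟨hc, hac, nn hbc, nn (sym _ _ hcd)⟩),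
    rd d ⟨hd, hcd, had, hbd⟩, ?_⟩
  intro w hw
  refine ⟨?_, ?_, ?_, ?_⟩
  · rintro ⟨h1, h2, h3, h4⟩
    exact ra w ⟨hw, sym _ _ h2, fun h' => h4 (sym _ _ h'), fun h' => h3 (sym _ _ h')⟩ (sym _ _ h1)
  · rintro ⟨h1, h2, h3, h4⟩
    exact rd w ⟨hw, sym _ _ h3, fun h' => h1 (sym _ _ h'), fun h' => h2 (sym _ _ h')⟩ (sym _ _ h4)
  · rintro ⟨h1, h2, h3, h4⟩
    exact rb w ⟨hw, fun h' => h4 (sym _ _ h'), nn (sym _ _ h3), nn (sym _ _ h1)⟩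
      (fun h' => h2 (sym _ _ h'))
  · rintro ⟨h1, h2, h3, h4⟩
    exact rc w ⟨hw, fun h' => h1 (sym _ _ h'), nn (sym _ _ h2), nn (sym _ _ h4)⟩
      (fun h' => h3 (sym _ _ h'))

/-- **(P3')** -/
theorem p3 [Finite X] {S : X → X → Prop} (sym : ∀ x y, S x y → S y x)
    (hP : ∀ u v, (S u u ↔ S v v) → ¬ (S u v ↔ S u u) → ∃ g, Mid S u v g)
    (hex : ∃ a b c d, P4 S a b c d) :
    ∃ a b c d, P4 S a b c d ∧ ¬ S a a ∧ S b b ∧ S c c ∧ ¬ S d d ∧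
      ∀ w, (∀ y, (S a y ↔ S b y) → (S b y ↔ S c y) → (S c y ↔ S d y) → (S w y ↔ S a y)) →
        ¬ (S w a ∧ S w b ∧ ¬ S w c ∧ ¬ S w d) ∧ ¬ (¬ S w a ∧ ¬ S w b ∧ S w c ∧ S w d) ∧
        ¬ (S w a ∧ ¬ S w b ∧ S w c ∧ ¬ S w d) ∧ ¬ (¬ S w a ∧ S w b ∧ ¬ S w c ∧ S w d) := by
  classical
  obtain ⟨a0, b0, c0, d0, hp0⟩ := hex
  obtain ⟨F, ⟨f, a1, b1, c1, d1, hp1, hF1⟩, hmax⟩ := Set.exists_max_image
    {F : Set X | ∃ f : X → Prop, ∃ a b c d, P4 S a b c d ∧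
      ∀ y ∈ F, (S a y ↔ f y) ∧ (S b y ↔ f y) ∧ (S c y ↔ f y) ∧ (S d y ↔ f y)}
    Set.ncard (Set.toFinite _) ⟨∅, fun _ => True, a0, b0, c0, d0, hp0, fun y hy => hy.elim⟩
  have key : ∀ a b c d, P4 S a b c d → (∀ y ∈ F, (S a y ↔ f y)) → (∀ y ∈ F, (S b y ↔ f y)) →
      (∀ y ∈ F, (S c y ↔ f y)) → (∀ y ∈ F, (S d y ↔ f y)) → ∀ (t : Prop) y, (S a y ↔ t) →
      (S b y ↔ t) → (S c y ↔ t) → (S d y ↔ t) → y ∈ F := by
    intro a b c d hp ha hb hc hd t y h1 h2 h3 h4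
    by_contra hy
    have hle := hmax (insert y F) ⟨fun z => if z = y then t else f z, a, b, c, d, hp, by
      intro z hz
      by_cases hzy : z = y
      · subst hzy
        simp [h1, h2, h3, h4]
      · have hzF : z ∈ F := by
          rcases hz with h | h
          · exact absurd h hzy
          · exact h
        simp only [hzy, if_false]
        exact ⟨ha z hzF, hb z hzF, hc z hzF, hd z hzF⟩⟩
    rw [Set.ncard_insert_of_notMem hy (Set.toFinite _)] at hle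
    omega
  have hcell : Cell S {x | ∀ y ∈ F, (S x y ↔ f y)} := by
    refine ⟨sym, ?_, ?_, ?_⟩
    · intro u hu v hv h1 h2
      obtain ⟨g, m⟩ := hP u v h1 h2
      exact ⟨g, fun y hy => (m.2.2.2 y ((hu y hy).trans (hv y hy).symm)).trans (hu y hy), m⟩
    · intro a ha b hb c hc d hd hp y h1 h2 h3 h4 x hx hyx
      have hyF := key a b c d hp ha hb hc hd False y (by simpa using fun h' => h1 (sym _ _ h'))
        (by simpa using fun h' => h2 (sym _ _ h')) (by simpa using fun h' => h3 (sym _ _ h'))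
        (by simpa using fun h' => h4 (sym _ _ h'))
      exact h1 (sym _ _ ((ha y hyF).2 ((hx y hyF).1 (sym _ _ hyx))))
    · intro a ha b hb c hc d hd hp y h1 h2 h3 h4 x hx
      have hyF := key a b c d hp ha hb hc hd True y (by simpa using sym _ _ h1)
        (by simpa using sym _ _ h2) (by simpa using sym _ _ h3) (by simpa using sym _ _ h4)
      exact sym _ _ ((hx y hyF).2 ((ha y hyF).1 (sym _ _ h1)))
  obtain ⟨a, ha, b, hb, c, hc, d, hd, hp, l1, l2, l3, l4, hw⟩ := hcell.good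
    ⟨a1, fun y hy => (hF1 y hy).1, b1, fun y hy => (hF1 y hy).2.1, c1,
      fun y hy => (hF1 y hy).2.2.1, d1, fun y hy => (hF1 y hy).2.2.2, hp1⟩
  refine ⟨a, b, c, d, hp, l1, l2, l3, l4, fun w hwa => hw w fun y hy => ?_⟩
  exact (hwa y ((ha y hy).trans (hb y hy).symm) ((hb y hy).trans (hc y hy).symm)
    ((hc y hy).trans (hd y hy).symm)).trans (ha y hy)

end Pool.Agent.H11.P3
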